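import Pool.Agent.W39.LE.Stm

/-!
LEN-IM: `S_IM`, and the chain theorem `S_CH` and `S_TB` from the step lemmas.
-/

set_option autoImplicit false

namespace Pool.W856.LE

open Complex Pool.W39.LE Pool.W39.LE.BT

/-! ### basic facts -/

theorem ctx : S_CTX := by
  intro x p q hx hq h
  have hq' : 0 < normSq q := normSq_pos.mpr hq
  have hpos : 0 < (p * (starRingEnd ℂ) q).im := lt_of_lt_of_le (mul_pos hx hq') h
  have hne : p - q ≠ 0 := by
    intro h0
    have : p = q := sub_eq_zero.mp h0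
    rw [this, mul_conj] at hpos
    simp at hpos
  refine ⟨hne, ?_⟩
  have hn : 0 < normSq (p - q) := normSq_pos.mpr hne
  have h1 : -p / (p - q) + ((1 : ℝ) : ℂ) = -q / (p - q) := by
    field_simp
    push_cast
    ring
  unfold Adm
  rw [h1]
  have h2 : (-p / (p - q)).im = (p * (starRingEnd ℂ) q).im / normSq (p - q) := by
    rw [div_im]
    simp only [mul_im, conj_re, conj_im, neg_re, neg_im, sub_re, sub_im]
    field_simp
    ring
  rw [h2, normSq_div, normSq_neg, one_mul, ← mul_div_assoc]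
  exact div_le_div_of_nonneg_right h hn.le

theorem phi_join (z : ℂ) (s t : BT) :
    Phi z (join s t) = Phi z s * Phi z t - Psi z s * Phi z t - Phi z s * Psi z t := rfl

theorem psi_join (z : ℂ) (s t : BT) :
    Psi z (join s t) = Psi z s * (Phi z t - Psi z t) := rfl

theorem adm_im {x D : ℝ} {h : ℂ} (hx : 0 < x) (hD : 0 < D) (ha : Adm x D h) : 0 ≤ h.im := by
  have h1 : 0 ≤ D * h.im := le_trans (mul_nonneg hx.le (normSq_nonneg _)) ha
  exact nonneg_of_mul_nonneg_right h1 hD

theorem im : S_IM := by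
  intro x t hx
  induction t with
  | leaf =>
      refine ⟨by simp [Psi, val], ?_⟩
      simp [Psi, Phi, val, zx]
  | join s t ihs iht =>
      obtain ⟨hs0, hs⟩ := ihs
      obtain ⟨ht0, ht⟩ := iht
      obtain ⟨hne, hadm⟩ := ctx x _ _ hx ht0 ht
      have him := adm_im hx one_pos hadm
      have hQ : Psi (zx x) (join s t) ≠ 0 := by
        rw [psi_join]
        exact mul_ne_zero hs0 hne
      refine ⟨hQ, ?_⟩
      set P1 := Phi (zx x) s with hP1
      set Q1 := Psi (zx x) s with hQ1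
      set P2 := Phi (zx x) t with hP2
      set Q2 := Psi (zx x) t with hQ2
      have e1 : Phi (zx x) (join s t) = P1 * (P2 - Q2) + (-P2 / (P2 - Q2)) * (Q1 * (P2 - Q2)) := by
        rw [phi_join, ← hP1, ← hQ1, ← hP2, ← hQ2]
        field_simp
        ring
      rw [psi_join, e1, ← hQ1, ← hP2, ← hQ2, normSq_mul, (starRingEnd ℂ).map_mul]
      have e2 : (P1 * (P2 - Q2) + (-P2 / (P2 - Q2)) * (Q1 * (P2 - Q2))) *
          ((starRingEnd ℂ) Q1 * (starRingEnd ℂ) (P2 - Q2)) =
          (P1 * (starRingEnd ℂ) Q1) * ((normSq (P2 - Q2) : ℝ) : ℂ) +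
            (-P2 / (P2 - Q2)) * (((normSq Q1 * normSq (P2 - Q2) : ℝ)) : ℂ) := by
        rw [ofReal_mul, ← mul_conj (P2 - Q2), ← mul_conj Q1]
        ring
      rw [e2, add_im, im_mul_ofReal, im_mul_ofReal]
      have hn : 0 ≤ normSq (P2 - Q2) := normSq_nonneg _
      have hn1 : 0 ≤ normSq Q1 := normSq_nonneg _
      nlinarith [mul_le_mul_of_nonneg_right hs hn, mul_nonneg him (mul_nonneg hn1 hn)]

/-- the first context identity -/
theorem ctx1 (z h : ℂ) (s t : BT) (hne : Phi z t - Psi z t ≠ 0) :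
    Phi z (join s t) + h * Psi z (join s t) =
      (Phi z t - Psi z t) * (Phi z s + (h + -Phi z t / (Phi z t - Psi z t)) * Psi z s) := by
  rw [phi_join, psi_join]
  field_simp
  ring

/-- the second context identity -/
theorem ctx2 (z h : ℂ) (s t : BT) (hne : (Phi z s + h * Psi z s) - Psi z s ≠ 0) :
    Phi z (join s t) + h * Psi z (join s t) =
      ((Phi z s + h * Psi z s) - Psi z s) *
        (Phi z t + (-(Phi z s + h * Psi z s) / ((Phi z s + h * Psi z s) - Psi z s)) * Psi z t) := by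
  rw [phi_join, psi_join]
  obtain ⟨d, hd⟩ : ∃ d, d = (Phi z s + h * Psi z s) - Psi z s := ⟨_, rfl⟩
  rw [← hd] at hne ⊢
  have e : d * (-(Phi z s + h * Psi z s) / d) = -(Phi z s + h * Psi z s) :=
    mul_div_cancel₀ _ hne
  rw [mul_add, ← mul_assoc d (-(Phi z s + h * Psi z s) / d), e, hd]
  ring

theorem adm_sub (x : ℝ) (t : BT) (hx : 0 < x) :
    Phi (zx x) t - Psi (zx x) t ≠ 0 ∧
      Adm x 1 (-Phi (zx x) t / (Phi (zx x) t - Psi (zx x) t)) := by
  obtain ⟨h0, h1⟩ := im x t hx
  exact ctx x _ _ hx h0 h1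

theorem adm_up (x D : ℝ) (h : ℂ) (s : BT) (hx : 0 < x) (hD : 0 < D) (ha : Adm x D h) :
    (Phi (zx x) s + h * Psi (zx x) s) - Psi (zx x) s ≠ 0 ∧
      Adm x 1 (-(Phi (zx x) s + h * Psi (zx x) s) /
        ((Phi (zx x) s + h * Psi (zx x) s) - Psi (zx x) s)) := by
  obtain ⟨h0, h1⟩ := im x s hx
  refine ctx x _ _ hx h0 ?_
  have e : (Phi (zx x) s + h * Psi (zx x) s) * (starRingEnd ℂ) (Psi (zx x) s) =
      Phi (zx x) s * (starRingEnd ℂ) (Psi (zx x) s) + h * ((normSq (Psi (zx x) s) : ℝ) : ℂ) := by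
    rw [← mul_conj]
    ring
  rw [e, add_im, im_mul_ofReal]
  have := mul_nonneg (adm_im hx hD ha) (normSq_nonneg (Psi (zx x) s))
  linarith

/-! ### lists -/

theorem PR_append (P Q : List ℝ) (x : ℝ) : PR (P ++ Q) x = PR P x * PR Q x := by
  simp [PR, List.prod_append]

theorem PR_nil (x : ℝ) : PR [] x = 1 := by simp [PR]

theorem PR_pos (P : List ℝ) (x : ℝ) (hx : 0 < x) : 0 < PR P x := by
  unfold PR
  apply List.prod_pos
  intro a ha
  rw [List.mem_map] at ha
  obtain ⟨p, _, rfl⟩ := ha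
  positivity

theorem PQ_nil : PQ [] [] 0 := by
  refine ⟨rfl, ?_, ?_, ?_⟩ <;> simp

theorem PQ_append {P1 Q1 P2 Q2 : List ℝ} {g1 g2 : ℝ} (h1 : PQ P1 Q1 g1) (h2 : PQ P2 Q2 g2) :
    PQ (P1 ++ P2) (Q1 ++ Q2) (g1 + g2) := by
  obtain ⟨a1, b1, c1, d1⟩ := h1
  obtain ⟨a2, b2, c2, d2⟩ := h2
  refine ⟨by simp [a1, a2], ?_, ?_, ?_⟩
  · intro p hp
    rcases List.mem_append.mp hp with h | h
    · exact b1 p h
    · exact b2 p h
  · intro p hp
    rcases List.mem_append.mp hp with h | h
    · exact c1 p h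
    · exact c2 p h
  · rw [List.sum_append, List.sum_append]
    linarith

/-! ### parametrisation -/

theorem exists_xs (x : ℝ) (hx : 0 < x) : ∃ s : ℝ, 0 < s ∧ s < 1 ∧ x = xs s := by
  have h4 : 0 ≤ x ^ 2 + 4 := by positivity
  have hsq := Real.sq_sqrt h4
  have hnn := Real.sqrt_nonneg (x ^ 2 + 4)
  set r := Real.sqrt (x ^ 2 + 4) with hr
  have h1 : x < r := by nlinarith
  have h2 : r < x + 2 := by nlinarith
  have hs : 0 < (r - x) / 2 := by linarith
  refine ⟨(r - x) / 2, hs, by linarith, ?_⟩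
  unfold xs
  rw [eq_div_iff hs.ne']
  nlinarith

theorem pow_lt {s : ℝ} (h0 : 0 < s) (h1 : s < 1) {a : ℕ} (ha : 1 ≤ a) :
    |(-s ^ 2) ^ a| < 1 := by
  rw [abs_pow, abs_neg, abs_of_nonneg (sq_nonneg s)]
  have : s ^ 2 < 1 := by nlinarith
  exact pow_lt_one₀ (sq_nonneg s) this (by omega)

theorem dls_pos {s A B : ℝ} (h0 : 0 < s) (h1 : s < 1) (hA : |A| < 1) (hB : |B| < 1) :
    0 < dls s A B := by
  obtain ⟨hA1, hA2⟩ := abs_lt.mp hA
  obtain ⟨hB1, hB2⟩ := abs_lt.mp hB
  have hAB : |A * B| < 1 := by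
    rw [abs_mul]
    exact mul_lt_one_of_nonneg_of_lt_one_left (abs_nonneg _) hA hB.le
  obtain ⟨h3, h4⟩ := abs_lt.mp hAB
  have hs : s ^ 2 < 1 := by nlinarith
  have hs0 : 0 < s ^ 2 := by positivity
  unfold dls
  apply div_pos
  · exact mul_pos hs0 (mul_pos (by linarith) (by linarith))
  · apply mul_pos (by linarith)
    nlinarith

theorem ets_nonneg {s A B : ℝ} (h0 : 0 < s) (h1 : s < 1) (hA : |A| < 1) (hB : |B| < 1) :
    0 ≤ ets s A B := by
  have hAB : |A * B| < 1 := by
    rw [abs_mul]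
    exact mul_lt_one_of_nonneg_of_lt_one_left (abs_nonneg _) hA hB.le
  obtain ⟨h3, h4⟩ := abs_lt.mp hAB
  have hs : s ^ 2 < 1 := by nlinarith
  have hs0 : 0 < s ^ 2 := by positivity
  unfold ets
  apply div_nonneg
  · exact mul_nonneg h0.le (by linarith)
  · nlinarith

/-! ### one merging step -/

theorem merge_step (hd : S_DISC) (hm : S_MRG) {s : ℝ} (h0 : 0 < s) (h1 : s < 1) {a b : ℕ}
    (ha : 1 ≤ a) {D : ℝ} (hD : 0 < D) {P Q : List ℝ} (hx : 0 < xs s)
    (hok : StepOK (xs s) D (dls s ((-s ^ 2) ^ a) ((-s ^ 2) ^ (b + 1)))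
      (ets s ((-s ^ 2) ^ a) ((-s ^ 2) ^ (b + 1))) (PR P (xs s) / PR Q (xs s)))
    {h : ℂ} (hadm : Adm (xs s) D h) :
    PR P (xs s) * normSq (Phi (zx (xs s)) (pth (a + b + 1)) + h * Psi (zx (xs s)) (pth (a + b + 1)))
      ≤ PR Q (xs s) * normSq (Phi (zx (xs s)) (join (pth a) (pth b)) +
          h * Psi (zx (xs s)) (join (pth a) (pth b))) := by
  obtain ⟨hV, e1, e2, e3, e4⟩ := hm s a b h0 h1 ha
  have hA := pow_lt h0 h1 ha
  have hB := pow_lt h0 h1 (show 1 ≤ b + 1 by omega)
  have hP := PR_pos P (xs s) hx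
  have hQ := PR_pos Q (xs s) hx
  have key := hd (xs s) D _ _ _ hx hD (dls_pos h0 h1 hA hB) (ets_nonneg h0 h1 hA hB)
    (div_pos hP hQ).le hok h hadm
  set c : ℂ := I ^ (a + b + 1) * Vs s (a + b + 1) with hc
  have f1 : Phi (zx (xs s)) (pth (a + b + 1)) + h * Psi (zx (xs s)) (pth (a + b + 1)) =
      c * (zx (xs s) + h * (1 - I * (ets s ((-s ^ 2) ^ a) ((-s ^ 2) ^ (b + 1)) : ℝ))) := by
    rw [e1, e2]
    ring
  have f2 : Phi (zx (xs s)) (join (pth a) (pth b)) + h * Psi (zx (xs s)) (join (pth a) (pth b)) =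
      c * (zx (xs s) + h * (1 - I * (ets s ((-s ^ 2) ^ a) ((-s ^ 2) ^ (b + 1)) : ℝ) -
        zx (xs s) * (dls s ((-s ^ 2) ^ a) ((-s ^ 2) ^ (b + 1)) : ℝ))) := by
    rw [e3, e4]
    ring
  rw [f1, f2]
  clear_value c
  rw [normSq_mul c, normSq_mul c]
  rw [div_mul_eq_mul_div, div_le_iff₀ hQ] at key
  have hcn : 0 ≤ normSq c := normSq_nonneg _
  nlinarith [mul_le_mul_of_nonneg_left key hcn]

theorem size_pos (t : BT) : 1 ≤ t.size := by
  induction t with
  | leaf => simp [BT.size]
  | join s t ihs iht => simp only [BT.size]; omega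

theorem size_ge_two {t : BT} (h : t ≠ leaf) : 2 ≤ t.size := by
  cases t with
  | leaf => exact absurd rfl h
  | join s t =>
      have h1 := size_pos s
      have h2 := size_pos t
      simp only [BT.size]
      omega

/-- merging at the root, all cases -/
theorem merge_all (h1 : S_STEP1) (h2 : S_STEP2) (hd : S_DISC) (hm : S_MRG) (s t : BT) (D : ℕ)
    (hD : 1 ≤ D) :
    ∃ P Q : List ℝ, PQ P Q (((if s = leaf then 0 else
        if (decide (2 ≤ D)) then d2 (s.size - 1) t.size else d1 (s.size - 1) t.size : ℕ) : ℝ) / 1000) ∧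
      ∀ (x : ℝ) (h : ℂ), 0 < x → Adm x D h →
        PR P x * normSq (Phi (zx x) (pth (s.size + t.size - 1)) +
            h * Psi (zx x) (pth (s.size + t.size - 1))) ≤
          PR Q x * normSq (Phi (zx x) (join (pth (s.size - 1)) (pth (t.size - 1))) +
            h * Psi (zx x) (join (pth (s.size - 1)) (pth (t.size - 1)))) := by
  have ht := size_pos t
  by_cases hs : s = leaf
  · subst hs
    refine ⟨[], [], ?_, ?_⟩
    · simpa using PQ_nil
    · intro x h hx ha
      obtain ⟨k, hk⟩ : ∃ k, t.size = k + 1 := ⟨t.size - 1, by omega⟩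
      rw [hk]
      have e : (BT.leaf.size + (k + 1) - 1) = k + 1 := by simp [BT.size]
      rw [e]
      exact le_refl _
  · have hs2 := size_ge_two hs
    obtain ⟨k, hk⟩ : ∃ k, t.size = k + 1 := ⟨t.size - 1, by omega⟩
    obtain ⟨a, hsa⟩ : ∃ a, s.size = a + 1 := ⟨s.size - 1, by omega⟩
    have ha1 : 1 ≤ a := by omega
    rw [if_neg hs, hk, hsa]
    simp only [Nat.add_sub_cancel]
    have e : (a + 1 + (k + 1) - 1) = a + k + 1 := by omega
    rw [e]
    have hDr : (0 : ℝ) < D := by exact_mod_cast hD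
    by_cases hD2 : 2 ≤ D
    · obtain ⟨P, Q, hPQ, hok⟩ := h2 a (k + 1) D ha1 (by omega) hD2
      refine ⟨P, Q, ?_, ?_⟩
      · simpa [hD2] using hPQ
      · intro x h hx ha
        obtain ⟨r, hr0, hr1, rfl⟩ := exists_xs x hx
        exact merge_step hd hm hr0 hr1 ha1 hDr hx (hok r hr0 hr1) ha
    · have hD1 : D = 1 := by omega
      subst hD1
      obtain ⟨P, Q, hPQ, hok⟩ := h1 a (k + 1) ha1 (by omega)
      refine ⟨P, Q, ?_, ?_⟩
      · simpa using hPQ
      · intro x h hx ha
        obtain ⟨r, hr0, hr1, rfl⟩ := exists_xs x hx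
        have := hok r hr0 hr1
        refine merge_step hd hm hr0 hr1 ha1 hDr hx ?_ ha
        simpa using this

theorem ch (h1 : S_STEP1) (h2 : S_STEP2) (hd : S_DISC) (ha : S_ADD) (_hc : S_CTX) (hm : S_MRG) :
    S_CH := by
  intro t
  induction t with
  | leaf =>
      intro D hD
      refine ⟨[], [], ?_, ?_⟩
      · simpa [G] using PQ_nil
      · intro x h hx hadm
        exact le_refl _
  | join s t ihs iht =>
      intro D hD
      obtain ⟨P1, Q1, hPQ1, hs⟩ := ihs (D + 1) (by omega)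
      obtain ⟨P2, Q2, hPQ2, ht⟩ := iht 1 le_rfl
      obtain ⟨P3, Q3, hPQ3, hst⟩ := merge_all h1 h2 hd hm s t D hD
      refine ⟨P1 ++ P2 ++ P3, Q1 ++ Q2 ++ Q3, ?_, ?_⟩
      · have := PQ_append (PQ_append hPQ1 hPQ2) hPQ3
        have e1 : decide (2 ≤ D + 1) = true := by simpa using hD
        have e2 : decide (2 ≤ 1) = false := by simp
        rw [e1, e2] at this
        rw [G]
        convert this using 1
        push_cast
        ring
      · intro x h hx hadm
        have hDr : (0 : ℝ) < D := by exact_mod_cast hD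
        -- first `s`
        have step1 : PR P1 x * normSq (Phi (zx x) (join (pth (s.size - 1)) t) +
            h * Psi (zx x) (join (pth (s.size - 1)) t)) ≤
            PR Q1 x * normSq (Phi (zx x) (join s t) + h * Psi (zx x) (join s t)) := by
          obtain ⟨hne, hadm2⟩ := adm_sub x t hx
          rw [ctx1 _ _ _ _ hne, ctx1 _ _ _ _ hne, normSq_mul, normSq_mul]
          have hadd := ha x D 1 _ _ hx hDr one_pos hadm hadm2
          have hadd' : Adm x ((D + 1 : ℕ) : ℝ)
              (h + -Phi (zx x) t / (Phi (zx x) t - Psi (zx x) t)) := by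
            push_cast
            exact hadd
          have := hs x _ hx hadd'
          nlinarith [mul_le_mul_of_nonneg_left this (normSq_nonneg (Phi (zx x) t - Psi (zx x) t))]
        have step2 : PR P2 x * normSq (Phi (zx x) (join (pth (s.size - 1)) (pth (t.size - 1))) +
            h * Psi (zx x) (join (pth (s.size - 1)) (pth (t.size - 1)))) ≤
            PR Q2 x * normSq (Phi (zx x) (join (pth (s.size - 1)) t) +
              h * Psi (zx x) (join (pth (s.size - 1)) t)) := by
          obtain ⟨hne, hadm2⟩ := adm_up x D h (pth (s.size - 1)) hx hDr hadm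
          rw [ctx2 _ _ _ _ hne, ctx2 _ _ _ _ hne, normSq_mul, normSq_mul]
          have hadd' := hadm2
          rw [← Nat.cast_one (R := ℝ)] at hadd'
          have := ht x _ hx hadd'
          nlinarith [mul_le_mul_of_nonneg_left this (normSq_nonneg
            ((Phi (zx x) (pth (s.size - 1)) + h * Psi (zx x) (pth (s.size - 1))) -
              Psi (zx x) (pth (s.size - 1))))]
        have step3 := hst x h hx hadm
        have e : (BT.join s t).size - 1 = s.size + t.size - 1 := rfl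
        rw [e, PR_append, PR_append, PR_append, PR_append]
        have p1 := PR_pos P1 x hx
        have p2 := PR_pos P2 x hx
        have q2 := PR_pos Q2 x hx
        have q3 := PR_pos Q3 x hx
        calc PR P1 x * PR P2 x * PR P3 x * normSq (Phi (zx x) (pth (s.size + t.size - 1)) +
                h * Psi (zx x) (pth (s.size + t.size - 1)))
            = PR P1 x * PR P2 x * (PR P3 x * normSq (Phi (zx x) (pth (s.size + t.size - 1)) +
                h * Psi (zx x) (pth (s.size + t.size - 1)))) := by ring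
          _ ≤ PR P1 x * PR P2 x * (PR Q3 x * normSq (Phi (zx x) (join (pth (s.size - 1))
                (pth (t.size - 1))) + h * Psi (zx x) (join (pth (s.size - 1)) (pth (t.size - 1))))) :=
              mul_le_mul_of_nonneg_left step3 (mul_pos p1 p2).le
          _ = PR P1 x * PR Q3 x * (PR P2 x * normSq (Phi (zx x) (join (pth (s.size - 1))
                (pth (t.size - 1))) + h * Psi (zx x) (join (pth (s.size - 1)) (pth (t.size - 1))))) := by
              ring
          _ ≤ PR P1 x * PR Q3 x * (PR Q2 x * normSq (Phi (zx x) (join (pth (s.size - 1)) t) +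
                h * Psi (zx x) (join (pth (s.size - 1)) t))) :=
              mul_le_mul_of_nonneg_left step2 (mul_pos p1 q3).le
          _ = PR Q2 x * PR Q3 x * (PR P1 x * normSq (Phi (zx x) (join (pth (s.size - 1)) t) +
                h * Psi (zx x) (join (pth (s.size - 1)) t))) := by ring
          _ ≤ PR Q2 x * PR Q3 x * (PR Q1 x * normSq (Phi (zx x) (join s t) +
                h * Psi (zx x) (join s t))) :=
              mul_le_mul_of_nonneg_left step1 (mul_pos q2 q3).le
          _ = PR Q1 x * PR Q2 x * PR Q3 x * normSq (Phi (zx x) (join s t) +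
                h * Psi (zx x) (join s t)) := by ring

/-- the value of a tree with two pure arms at the root -/
theorem two_arms (z : ℂ) (X : BT) (s t : BT) (h1 : Phi z s - Psi z s ≠ 0)
    (h2 : Phi z t - Psi z t ≠ 0) :
    Phi z (join (join X s) t) = (Phi z t - Psi z t) * ((Phi z s - Psi z s) *
      (Phi z X + (-Phi z t / (Phi z t - Psi z t) + -Phi z s / (Phi z s - Psi z s)) * Psi z X)) := by
  have e1 := ctx1 z 0 (join X s) t h2
  rw [zero_mul, add_zero, zero_add] at e1
  rw [e1, ctx1 z _ X s h1]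

theorem tb (hch : S_CH) (ha : S_ADD) (_hc : S_CTX) (hs : S_SPI) (hl : S_LAST) : S_TB := by
  intro X a b hX
  obtain ⟨P1, Q1, hPQ1, h1⟩ := hch X 2 (by norm_num)
  obtain ⟨P2, Q2, hPQ2, h2⟩ := hl (a + 1) (b + 1) (X.size - 1) (by omega) (by omega) (by omega)
  refine ⟨P1 ++ P2, Q1 ++ Q2, ?_, ?_⟩
  · have := PQ_append hPQ1 hPQ2
    have e1 : decide (2 ≤ 2) = true := by simp
    rw [e1] at this
    convert this using 1
    push_cast
    ring
  · intro x hx
    obtain ⟨ha0, haA⟩ := adm_sub x (pth a) hx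
    obtain ⟨hb0, hbA⟩ := adm_sub x (pth b) hx
    have hadd : Adm x ((2 : ℕ) : ℝ) (-Phi (zx x) (pth b) / (Phi (zx x) (pth b) - Psi (zx x) (pth b)) +
        -Phi (zx x) (pth a) / (Phi (zx x) (pth a) - Psi (zx x) (pth a))) := by
      have := ha x 1 1 _ _ hx one_pos one_pos hbA haA
      have e : ((2 : ℕ) : ℝ) = 1 + 1 := by norm_num
      rw [e]
      exact this
    have k1 := h1 x _ hx hadd
    have step1 : PR P1 x * normSq (Phi (zx x) (join (join (pth (X.size - 1)) (pth a)) (pth b))) ≤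
        PR Q1 x * normSq (Phi (zx x) (join (join X (pth a)) (pth b))) := by
      rw [two_arms _ _ _ _ ha0 hb0, two_arms _ X _ _ ha0 hb0, normSq_mul, normSq_mul, normSq_mul,
        normSq_mul]
      nlinarith [mul_le_mul_of_nonneg_left k1 (mul_nonneg
        (normSq_nonneg (Phi (zx x) (pth b) - Psi (zx x) (pth b)))
        (normSq_nonneg (Phi (zx x) (pth a) - Psi (zx x) (pth a))))]
    obtain ⟨r, hr0, hr1, rfl⟩ := exists_xs x hx
    have e := hs r a b (X.size - 1) hr0 hr1
    have k2 := h2 r hr0 hr1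
    set w := oms r ((-r ^ 2) ^ (a + 1)) ((-r ^ 2) ^ (b + 1)) ((-r ^ 2) ^ (X.size - 1)) with hw
    have en : normSq (1 - I * zx (xs r) * (w : ℂ)) = (1 + xs r * w) ^ 2 + 4 * w ^ 2 := by
      rw [normSq_apply]
      simp [zx]
      ring
    have e5 : a + b + (X.size - 1) + 2 = X.size + a + b + 1 := by omega
    have step2 : PR P2 (xs r) * normSq (Phi (zx (xs r)) (pth (X.size + a + b + 1))) ≤
        PR Q2 (xs r) * normSq (Phi (zx (xs r)) (join (join (pth (X.size - 1)) (pth a)) (pth b))) := by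
      rw [e, e5, normSq_mul, en]
      nlinarith [mul_le_mul_of_nonneg_right k2 (normSq_nonneg
        (Phi (zx (xs r)) (pth (X.size + a + b + 1))))]
    rw [PR_append, PR_append]
    have p1 := PR_pos P1 _ hx
    have q2 := PR_pos Q2 _ hx
    calc PR P1 (xs r) * PR P2 (xs r) * normSq (Phi (zx (xs r)) (pth (X.size + a + b + 1)))
        = PR P1 (xs r) * (PR P2 (xs r) * normSq (Phi (zx (xs r)) (pth (X.size + a + b + 1)))) := by
          ring
      _ ≤ PR P1 (xs r) * (PR Q2 (xs r) * normSq (Phi (zx (xs r))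
            (join (join (pth (X.size - 1)) (pth a)) (pth b)))) :=
          mul_le_mul_of_nonneg_left step2 p1.le
      _ = PR Q2 (xs r) * (PR P1 (xs r) * normSq (Phi (zx (xs r))
            (join (join (pth (X.size - 1)) (pth a)) (pth b)))) := by ring
      _ ≤ PR Q2 (xs r) * (PR Q1 (xs r) * normSq (Phi (zx (xs r))
            (join (join X (pth a)) (pth b)))) := mul_le_mul_of_nonneg_left step1 q2.le
      _ = PR Q1 (xs r) * PR Q2 (xs r) * normSq (Phi (zx (xs r))
            (join (join X (pth a)) (pth b))) := by ring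

end Pool.W856.LE
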